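import Pool.Agent.FHQ.StmtsZ

/-!
# Squad FHQ, row ZCS: consistency in the ultraproduct
-/

namespace Pool.Agent.FHQ.H40

open Pool.Agent.FHQ

/-- **Row ZCS.** -/
theorem zcs (hZlo : ZloStmt) : ZcsStmt := by
  intro F _ U mx d n N ψ w s
  classical
  have key : ∀ (x' : Fin d → ∀ t, F t) (i : Fin N),
      ψ.real (UP F U) (Em (UM F U mx))
        (Fin.append (fun j => cls F U (x' j)) (fun j => cls F U (w i j))) ↔
      ∀ᶠ t in (U : Filter ℕ), ψ.real (F t) (Em (mx t))
        (Fin.append (fun j => x' j t) (fun j => w i j t)) := by
    intro x' i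
    have h := hZlo F U mx (d + n) ψ (Fin.append x' (w i))
    have h1 : (fun j => cls F U (Fin.append x' (w i) j)) =
        Fin.append (fun j => cls F U (x' j)) (fun j => cls F U (w i j)) := by
      funext j
      refine Fin.addCases (fun j => ?_) (fun j => ?_) j
      · rw [Fin.append_left, Fin.append_left]
      · rw [Fin.append_right, Fin.append_right]
    have h2 : ∀ t, (fun j => Fin.append x' (w i) j t) =
        Fin.append (fun j => x' j t) (fun j => w i j t) := by
      intro t
      funext j
      refine Fin.addCases (fun j => ?_) (fun j => ?_) j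
      · rw [Fin.append_left, Fin.append_left]
      · rw [Fin.append_right, Fin.append_right]
    rw [h1] at h
    simp only [h2] at h
    exact h
  constructor
  · rintro ⟨x, hx⟩
    have hsurj : ∀ j, ∃ f : ∀ t, F t, cls F U f = x j := fun j =>
      Ideal.Quotient.mk_surjective (x j)
    choose x' hx' using hsurj
    have h1 : x = fun j => cls F U (x' j) := funext fun j => (hx' j).symm
    subst h1
    have h2 : ∀ᶠ t in (U : Filter ℕ), ∀ i ∈ s, ψ.real (F t) (Em (mx t))
        (Fin.append (fun j => x' j t) (fun j => w i j t)) := by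
      rw [Filter.eventually_all_finset]
      intro i hi
      exact (key x' i).mp (hx i hi)
    exact h2.mono fun t ht => ⟨fun j => x' j t, ht⟩
  · intro h
    let y : ∀ t, Fin d → F t := fun t =>
      if h : ∃ x : Fin d → F t, ∀ i ∈ s,
        ψ.real (F t) (Em (mx t)) (Fin.append x (fun j => w i j t)) then h.choose else fun _ => 0
    have hy : ∀ᶠ t in (U : Filter ℕ), ∀ i ∈ s, ψ.real (F t) (Em (mx t))
        (Fin.append (y t) (fun j => w i j t)) := by
      refine h.mono fun t ht => ?_
      have h1 : y t = ht.choose := dif_pos ht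
      rw [h1]
      exact ht.choose_spec
    refine ⟨fun j => cls F U (fun t => y t j), fun i hi => ?_⟩
    refine (key (fun j t => y t j) i).mpr ?_
    exact hy.mono fun t ht => ht i hi

end Pool.Agent.FHQ.H40
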